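import Pool.Agent.Work.MP_9dede5_an.Bd.B01
import Pool.Agent.Work.MP_9dede5_an.Bd.B02
import Pool.Agent.Work.MP_9dede5_an.Bd.B03

/-! All pieces put together (MP_9dede5_an). -/

universe u

namespace NAO

theorem allRay : SRay.{u} := itemA1
theorem allAlB : SAlB.{u} := itemA2
theorem allAlT : SAlT.{u} := itemA3a allRay
theorem allAlE : SAlE.{u} := itemA3b allRay
theorem allK1 : SK1.{u} := itemA4 allAlB
theorem allOm : SOm.{u} := itemA5 allAlB
theorem allDual : SDual.{u} := itemA6
theorem allSep : SSep.{u} := itemA7 allDual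
theorem allS : SS.{u} := itemA8 allAlB allSep
theorem allXX : SXX.{u} := itemA9 allAlB allSep
theorem allPos : SPos.{u} := itemA10 allAlB allXX
theorem allFib : SFib.{u} := itemB1 allAlT allOm
theorem allFC : SFC.{u} := itemB2 allS allPos
theorem allCur : SCur.{u} := itemB3 allRay
theorem allNor : SNor.{u} := itemB4
theorem allEst : SEst := itemB5
theorem allLP : SLP.{u} := itemB6 allRay allS allPos allCur allNor allEst
theorem allThmA : SThmA.{u} := itemB7 allAlB allAlT allFib allLP allFC allPos
theorem allH2 : SH2.{u} := itemB8 allOm allS allXX allThmA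
theorem allPB : SPB.{u} := itemC1 allAlT allAlB
theorem allSm : SSm.{u} := itemC2 allPB
theorem allCv : SCv.{u} := itemC3 allPB allRay
theorem allPC : SPC.{u} := itemD1 allAlB
theorem allPD : SPD.{u} := itemD2 allAlB allPC
theorem allPath : SPath.{u} := itemD3 allRay
theorem allCY : SCY.{u} := itemD4 allAlE
theorem allTel : STel.{u} := itemD5
theorem allPE : SPE.{u} := itemD6 allPath allCY allTel allPD allAlE allAlB
theorem allL0 : SL0.{u} := itemD7 allRay allAlB allAlE allPC allPE
theorem allPert : SPert.{u} := itemE1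
theorem allLag : SLag.{u} := itemE2
theorem allPF : SPF.{u} := itemE3 allAlB allPC allPert allLag
theorem allPG : SPG.{u} := itemE4 allAlB allPC allAlE allPert allLag
theorem allPH : SPH.{u} := itemE5 allRay allL0 allPF allPG
theorem allI : SI.{u} := itemF1 allRay
theorem allJ : SJ.{u} := itemF2 allI
theorem allL : SL.{u} := itemF3 allI allJ
theorem allQuad : SQuad := itemF4a
theorem allPar : SPar.{u} := itemF4b allQuad allL allRay
theorem allThree : SThree.{u} := sthree_of allK1 allH2 allSm allCv allPH allPar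
theorem allRed : SRed.{u} := itemG2
theorem allSub : SSub.{u} := itemG3a
theorem allJvN : SJvN.{u} := itemG3b

theorem main (X : Type u) [NormedAddCommGroup X] [NormedSpace ℂ X] (δ ε : ℝ)
    (hδ : 0 < δ) (hδ1 : δ < 1) (hε : 0 < ε) (hεδ : ε < (1 - δ) ^ 2)
    (hrank : 3 ≤ Module.rank ℂ X)
    (hsym : ∀ x y : X, NormingOrth δ ε x y → NormingOrth δ ε y x) : HilbertNorm X :=
  main_of allThree allRed allSub allJvN X δ ε hδ hδ1 hε hεδ hrank hsym

end NAO
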